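import Pool.Agent.Lib.MP_d81877_alA.Main

/-!
Raising and lowering operators are adjoint for the standard form; images of lowering operators
are orthogonal to the orbit span.
-/

open Finset Function MP_d81877_alF

namespace Pool.Agent.D818A

variable {N s : ℕ} {K : Type*} [CommRing K]

/-- `E_j^{(r)}`: moves `r` sites from column `j' = j + 1` to column `j` (in coordinates). -/
def raise (j j' : Fin s) (r : ℕ) (v : (Fin s → Finset (Fin N)) → K) :
    (Fin s → Finset (Fin N)) → K := fun S =>
  ∑ Y ∈ (S j \ S j').powersetCard r, v (update (update S j (S j \ Y)) j' (S j' ∪ Y))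

/-- `F_j^{(r)}`: moves `r` sites from column `j` to column `j' = j + 1` (in coordinates). -/
def lower (j j' : Fin s) (r : ℕ) (t : (Fin s → Finset (Fin N)) → K) :
    (Fin s → Finset (Fin N)) → K := fun S =>
  ∑ Y ∈ (S j' \ S j).powersetCard r, t (update (update S j (S j ∪ Y)) j' (S j' \ Y))

theorem primitive_iff {v : (Fin s → Finset (Fin N)) → K} :
    Primitive v ↔ ∀ j j' : Fin s, (j : ℕ) + 1 = j' → ∀ r, 1 ≤ r → raise j j' r v = 0 := by
  constructor
  · intro h j j' hjj r hr
    funext S
    exact h j j' hjj r hr S
  · intro h j j' hjj r hr S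
    exact congrFun (h j j' hjj r hr) S

/-- The standard form. -/
def pair (v w : (Fin s → Finset (Fin N)) → K) : K := ∑ S, v S * w S

theorem lower_adj {j j' : Fin s} (hne : j ≠ j') (r : ℕ) (t v : (Fin s → Finset (Fin N)) → K) :
    pair (lower j j' r t) v = pair t (raise j j' r v) := by
  classical
  unfold pair lower raise
  simp only [Finset.sum_mul, Finset.mul_sum]
  rw [Finset.sum_sigma', Finset.sum_sigma']
  refine Finset.sum_bij'
    (fun (z : (_ : Fin s → Finset (Fin N)) × Finset (Fin N)) _ =>
      (⟨update (update z.1 j (z.1 j ∪ z.2)) j' (z.1 j' \ z.2), z.2⟩ :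
        (_ : Fin s → Finset (Fin N)) × Finset (Fin N)))
    (fun (z : (_ : Fin s → Finset (Fin N)) × Finset (Fin N)) _ =>
      (⟨update (update z.1 j (z.1 j \ z.2)) j' (z.1 j' ∪ z.2), z.2⟩ :
        (_ : Fin s → Finset (Fin N)) × Finset (Fin N))) ?_ ?_ ?_ ?_ ?_
  · rintro ⟨S, Y⟩ hz
    simp only [mem_sigma, mem_univ, true_and, mem_powersetCard] at hz ⊢
    rw [update_of_ne hne, update_self, update_self]
    refine ⟨?_, hz.2⟩
    intro x hx
    have := hz.1 hx
    rw [mem_sdiff] at this
    rw [mem_sdiff, mem_union, mem_sdiff]
    exact ⟨Or.inr hx, fun h => h.2 hx⟩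
  · rintro ⟨S, Y⟩ hz
    simp only [mem_sigma, mem_univ, true_and, mem_powersetCard] at hz ⊢
    rw [update_of_ne hne, update_self, update_self]
    refine ⟨?_, hz.2⟩
    intro x hx
    have := hz.1 hx
    rw [mem_sdiff] at this
    rw [mem_sdiff, mem_union, mem_sdiff]
    exact ⟨Or.inr hx, fun h => h.2 hx⟩
  · rintro ⟨S, Y⟩ hz
    simp only [mem_sigma, mem_univ, true_and, mem_powersetCard] at hz
    have hY : ∀ x ∈ Y, x ∈ S j' ∧ x ∉ S j := fun x hx => by
      have := hz.1 hx; rwa [mem_sdiff] at this
    simp only [update_of_ne hne, update_self]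
    congr 1
    funext k
    by_cases hk' : k = j'
    · subst hk'
      rw [update_self]
      ext x
      have := hY x
      simp only [mem_union, mem_sdiff]
      tauto
    · rw [update_of_ne hk']
      by_cases hk : k = j
      · subst hk
        rw [update_self]
        ext x
        have := hY x
        simp only [mem_union, mem_sdiff]
        tauto
      · rw [update_of_ne hk, update_of_ne hk', update_of_ne hk]
  · rintro ⟨S, Y⟩ hz
    simp only [mem_sigma, mem_univ, true_and, mem_powersetCard] at hz
    have hY : ∀ x ∈ Y, x ∈ S j ∧ x ∉ S j' := fun x hx => by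
      have := hz.1 hx; rwa [mem_sdiff] at this
    simp only [update_of_ne hne, update_self]
    congr 1
    funext k
    by_cases hk' : k = j'
    · subst hk'
      rw [update_self]
      ext x
      have := hY x
      simp only [mem_union, mem_sdiff]
      tauto
    · rw [update_of_ne hk']
      by_cases hk : k = j
      · subst hk
        rw [update_self]
        ext x
        have := hY x
        simp only [mem_union, mem_sdiff]
        tauto
      · rw [update_of_ne hk, update_of_ne hk', update_of_ne hk]
  · rintro ⟨S, Y⟩ hz
    simp only [mem_sigma, mem_univ, true_and, mem_powersetCard] at hz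
    have hY : ∀ x ∈ Y, x ∈ S j' ∧ x ∉ S j := fun x hx => by
      have := hz.1 hx; rwa [mem_sdiff] at this
    simp only [update_of_ne hne, update_self]
    congr 2
    funext k
    by_cases hk' : k = j'
    · subst hk'
      rw [update_self]
      ext x
      have := hY x
      simp only [mem_union, mem_sdiff]
      tauto
    · rw [update_of_ne hk']
      by_cases hk : k = j
      · subst hk
        rw [update_self]
        ext x
        have := hY x
        simp only [mem_union, mem_sdiff]
        tauto
      · rw [update_of_ne hk, update_of_ne hk', update_of_ne hk]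

/-- Images of the lowering operators are orthogonal to primitive vectors. -/
theorem pair_lower_eq_zero {v : (Fin s → Finset (Fin N)) → K} (hv : Primitive v)
    {j j' : Fin s} (h : (j : ℕ) + 1 = j') {r : ℕ} (hr : 1 ≤ r)
    (t : (Fin s → Finset (Fin N)) → K) : pair (lower j j' r t) v = 0 := by
  have hne : j ≠ j' := by rintro rfl; omega
  rw [lower_adj hne, (primitive_iff.mp hv) j j' h r hr]
  simp [pair]

end Pool.Agent.D818A
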