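import Mathlib

/-!
A rearrangement inequality with decreasing weights, with its equality case.
-/

open Finset

namespace Pool.Agent.D818A

variable {s : ℕ}

theorem weight_initial (F G : Finset (Fin s)) (hcard : F.card = G.card)
    (hlt : ∀ a ∈ F \ G, ∀ b ∈ G \ F, a < b) :
    ∑ j ∈ G, (s - (j : ℕ)) ≤ ∑ j ∈ F, (s - (j : ℕ)) ∧
      (∑ j ∈ G, (s - (j : ℕ)) = ∑ j ∈ F, (s - (j : ℕ)) → F = G) := by
  classical
  have hF : ∑ j ∈ F, (s - (j : ℕ)) = ∑ j ∈ F \ G, (s - (j : ℕ)) + ∑ j ∈ F ∩ G, (s - (j : ℕ)) := by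
    rw [← Finset.sum_union (disjoint_sdiff_inter F G), sdiff_union_inter]
  have hG : ∑ j ∈ G, (s - (j : ℕ)) = ∑ j ∈ G \ F, (s - (j : ℕ)) + ∑ j ∈ F ∩ G, (s - (j : ℕ)) := by
    rw [inter_comm, ← Finset.sum_union (disjoint_sdiff_inter G F), sdiff_union_inter]
  have hc : (F \ G).card = (G \ F).card := by
    have h1 := card_sdiff_add_card_inter F G
    have h2 := card_sdiff_add_card_inter G F
    rw [inter_comm] at h2
    omega
  by_cases hne : (F \ G).Nonempty
  · have key : ∑ j ∈ G \ F, (s - (j : ℕ)) < ∑ j ∈ F \ G, (s - (j : ℕ)) := by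
      set m := (F \ G).max' hne with hm
      have hmm : m ∈ F \ G := Finset.max'_mem _ _
      have hms : (m : ℕ) < s := m.2
      have l1 : ∑ j ∈ G \ F, (s - (j : ℕ)) ≤ (G \ F).card * (s - (m : ℕ) - 1) := by
        rw [← smul_eq_mul]
        refine Finset.sum_le_card_nsmul _ _ _ fun j hj => ?_
        have := hlt m hmm j hj
        have h3 : (m : ℕ) < (j : ℕ) := this
        omega
      have l2 : (F \ G).card * (s - (m : ℕ)) ≤ ∑ j ∈ F \ G, (s - (j : ℕ)) := by
        rw [← smul_eq_mul]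
        refine Finset.card_nsmul_le_sum _ _ _ fun j hj => ?_
        have : j ≤ m := Finset.le_max' _ _ hj
        have h3 : (j : ℕ) ≤ (m : ℕ) := this
        omega
      have hpos : 0 < (F \ G).card := card_pos.mpr hne
      have l3 : (G \ F).card * (s - (m : ℕ) - 1) < (F \ G).card * (s - (m : ℕ)) := by
        rw [← hc]
        exact Nat.mul_lt_mul_of_pos_left (by omega) hpos
      omega
    refine ⟨by omega, fun h => ?_⟩
    omega
  · rw [Finset.not_nonempty_iff_eq_empty] at hne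
    have h2 : (G \ F) = ∅ := by
      rw [← Finset.card_eq_zero, ← hc, hne, card_empty]
    have hFG : F = G := by
      apply Finset.Subset.antisymm
      · exact sdiff_eq_empty_iff_subset.mp hne
      · exact sdiff_eq_empty_iff_subset.mp h2
    subst hFG
    exact ⟨le_rfl, fun _ => rfl⟩

theorem sum_thresholds (J : Finset (Fin s)) (h : Fin s → ℕ) (M : ℕ) (hM : ∀ j ∈ J, h j ≤ M) :
    ∑ j ∈ J, (s - (j : ℕ)) * h j
      + ∑ x ∈ range M, ∑ j ∈ J.filter (fun j => h j < x + 1), (s - (j : ℕ))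
      = ∑ j ∈ J, (s - (j : ℕ)) * M := by
  have h1 : ∑ x ∈ range M, ∑ j ∈ J.filter (fun j => h j < x + 1), (s - (j : ℕ))
      = ∑ j ∈ J, (s - (j : ℕ)) * ((range M).filter fun x => h j < x + 1).card := by
    simp only [Finset.sum_filter]
    rw [Finset.sum_comm]
    refine sum_congr rfl fun j _ => ?_
    rw [← Finset.sum_filter, Finset.sum_const, smul_eq_mul, mul_comm]
  rw [h1, ← Finset.sum_add_distrib]
  refine sum_congr rfl fun j hj => ?_
  rw [← mul_add]
  congr 1
  have h2 : (range M).filter (fun x => h j < x + 1) = Finset.Ico (h j) M := by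
    ext x
    simp only [mem_filter, mem_range, Finset.mem_Ico]
    omega
  rw [h2, Nat.card_Ico]
  have := hM j hj
  omega

theorem rearr (J : Finset (Fin s)) (f g : Fin s → ℕ)
    (hf : ∀ j ∈ J, ∀ j' ∈ J, j ≤ j' → f j ≤ f j')
    (hc : ∀ x, (J.filter fun j => f j < x).card = (J.filter fun j => g j < x).card) :
    ∑ j ∈ J, (s - (j : ℕ)) * f j ≤ ∑ j ∈ J, (s - (j : ℕ)) * g j ∧
      (∑ j ∈ J, (s - (j : ℕ)) * f j = ∑ j ∈ J, (s - (j : ℕ)) * g j → ∀ j ∈ J, f j = g j) := by
  classical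
  set M := ∑ j ∈ J, f j + ∑ j ∈ J, g j with hMdef
  have hMf : ∀ j ∈ J, f j ≤ M := fun j hj =>
    (Finset.single_le_sum (f := f) (fun _ _ => Nat.zero_le _) hj).trans (Nat.le_add_right _ _)
  have hMg : ∀ j ∈ J, g j ≤ M := fun j hj =>
    (Finset.single_le_sum (f := g) (fun _ _ => Nat.zero_le _) hj).trans (Nat.le_add_left _ _)
  have ef := sum_thresholds J f M hMf
  have eg := sum_thresholds J g M hMg
  have hx : ∀ x, ∑ j ∈ J.filter (fun j => g j < x), (s - (j : ℕ))
      ≤ ∑ j ∈ J.filter (fun j => f j < x), (s - (j : ℕ)) ∧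
      (∑ j ∈ J.filter (fun j => g j < x), (s - (j : ℕ))
        = ∑ j ∈ J.filter (fun j => f j < x), (s - (j : ℕ)) →
        J.filter (fun j => f j < x) = J.filter (fun j => g j < x)) := by
    intro x
    refine weight_initial _ _ (hc x) ?_
    intro a ha b hb
    simp only [mem_sdiff, mem_filter, not_and, not_lt] at ha hb
    by_contra hcon
    rw [not_lt] at hcon
    have h1 := hf b hb.1.1 a ha.1.1 hcon
    have h2 := hb.2 hb.1.1
    omega
  have hsum : ∑ x ∈ range M, ∑ j ∈ J.filter (fun j => g j < x + 1), (s - (j : ℕ))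
      ≤ ∑ x ∈ range M, ∑ j ∈ J.filter (fun j => f j < x + 1), (s - (j : ℕ)) :=
    Finset.sum_le_sum fun x _ => (hx (x + 1)).1
  refine ⟨by omega, fun heq => ?_⟩
  have hsum' : ∑ x ∈ range M, ∑ j ∈ J.filter (fun j => g j < x + 1), (s - (j : ℕ))
      = ∑ x ∈ range M, ∑ j ∈ J.filter (fun j => f j < x + 1), (s - (j : ℕ)) := by omega
  have hall := (Finset.sum_eq_sum_iff_of_le fun x _ => (hx (x + 1)).1).mp hsum'
  have hsets : ∀ x ∈ range M, J.filter (fun j => f j < x + 1) = J.filter (fun j => g j < x + 1) :=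
    fun x hxM => (hx (x + 1)).2 (hall x hxM)
  intro j hj
  have h1 := hMf j hj
  have h2 := hMg j hj
  have key : ∀ x < M, (f j < x + 1 ↔ g j < x + 1) := by
    intro x hxM
    have h3 := hsets x (mem_range.mpr hxM)
    have h4 : j ∈ J.filter (fun j => f j < x + 1) ↔ j ∈ J.filter (fun j => g j < x + 1) := by
      rw [h3]
    simp only [mem_filter, hj, true_and] at h4
    exact h4
  by_contra hne
  rcases Nat.lt_or_gt_of_ne hne with hlt | hlt
  · have := key (f j) (by omega)
    omega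
  · have := key (g j) (by omega)
    omega

end Pool.Agent.D818A
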