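import Pool.Agent.Lib.MP_d81877_alA.Orbit
import Pool.Agent.Lib.MP_d81877_alA.Rearr

/-!
Standard bideterminants are triangular: the diagonal monomial of a standard tuple `S₀` occurs in
the product of minors of `S`, `pot S ≤ pot S₀`, only if `S = S₀`, and then with coefficient one.
-/

open Finset Function MP_d81877_alF

namespace Pool.Agent.D818A

variable {N s : ℕ}

section Exp

variable {C : Fin s → Finset (Fin N)}

/-- exponent of the monomial attached to a family of bijections -/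
noncomputable def mexp (S : Fin s → Finset (Fin N)) (e : ∀ j, S j ≃ C j) :
    (Fin N × Fin N) →₀ ℕ :=
  ∑ j, ∑ x : S j, Finsupp.single ((x : Fin N), ((e j x : C j) : Fin N)) 1

/-- the row used in column `i` -/
noncomputable def vl (S : Fin s → Finset (Fin N)) (e : ∀ j, S j ≃ C j) (i : Fin N) (j : Fin s) :
    ℕ := if h : i ∈ C j then (((e j).symm ⟨i, h⟩ : S j) : Fin N) else 0

theorem mexp_apply (S : Fin s → Finset (Fin N)) (e : ∀ j, S j ≃ C j) (y i : Fin N) :
    mexp S e (y, i) = ((univ.filter fun j => i ∈ C j).filter fun j => vl S e i j = y).card := by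
  classical
  unfold mexp
  rw [Finset.filter_filter, Finset.card_filter, Finsupp.finsetSum_apply]
  refine sum_congr rfl fun j _ => ?_
  rw [Finsupp.finsetSum_apply]
  by_cases h : i ∈ C j
  · have h1 : ∀ x : S j, (Finsupp.single ((x : Fin N), ((e j x : C j) : Fin N)) 1 :
        (Fin N × Fin N) →₀ ℕ) (y, i)
        = if x = (e j).symm ⟨i, h⟩ then (if vl S e i j = y then 1 else 0) else 0 := by
      intro x
      rw [Finsupp.single_apply]
      by_cases hx : x = (e j).symm ⟨i, h⟩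
      · rw [if_pos hx]
        have h2 : ((e j x : C j) : Fin N) = i := by rw [hx]; simp
        have h3 : vl S e i j = ((x : Fin N) : ℕ) := by
          unfold vl; rw [dif_pos h, hx]
        rw [h2, h3]
        simp only [Prod.mk.injEq, and_true, Fin.ext_iff]
      · rw [if_neg hx, if_neg]
        intro heq
        apply hx
        rw [Prod.mk.injEq] at heq
        rw [Equiv.eq_symm_apply]
        exact Subtype.ext heq.2
    rw [Finset.sum_congr rfl fun x _ => h1 x]
    rw [Finset.sum_ite_eq' univ ((e j).symm ⟨i, h⟩), if_pos (mem_univ _)]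
    simp only [h, true_and]
  · rw [Finset.sum_eq_zero]
    · simp [h]
    · intro x _
      rw [Finsupp.single_apply, if_neg]
      intro heq
      rw [Prod.mk.injEq] at heq
      apply h
      rw [← heq.2]
      exact (e j x).2

theorem card_vl_lt (S : Fin s → Finset (Fin N)) (e : ∀ j, S j ≃ C j) (i : Fin N) (x : ℕ) :
    ((univ.filter fun j => i ∈ C j).filter fun j => vl S e i j < x).card
      = ∑ y ∈ univ.filter (fun y : Fin N => (y : ℕ) < x), mexp S e (y, i) := by
  classical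
  simp only [mexp_apply]
  have h1 : ∀ j ∈ (univ.filter fun j => i ∈ C j).filter fun j => vl S e i j < x,
      (⟨vl S e i j, by
        unfold vl; split_ifs with h
        · exact Fin.is_lt _
        · exact lt_of_le_of_lt (Nat.zero_le _) i.2⟩ : Fin N)
        ∈ univ.filter (fun y : Fin N => (y : ℕ) < x) := by
    intro j hj
    rw [mem_filter] at hj ⊢
    exact ⟨mem_univ _, hj.2⟩
  rw [Finset.card_eq_sum_card_fiberwise h1]
  refine sum_congr rfl fun y hy => ?_
  rw [mem_filter] at hy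
  congr 1
  ext j
  simp only [mem_filter, mem_univ, true_and, Fin.ext_iff]
  constructor
  · rintro ⟨⟨a, b⟩, c⟩; exact ⟨a, c⟩
  · rintro ⟨a, c⟩; exact ⟨⟨a, by omega⟩, c⟩

theorem pot_eq (S : Fin s → Finset (Fin N)) (e : ∀ j, S j ≃ C j) :
    pot S = ∑ i : Fin N, ∑ j ∈ univ.filter (fun j => i ∈ C j), (s - (j : ℕ)) * vl S e i j := by
  classical
  unfold pot
  have h1 : ∀ j : Fin s, ∑ x ∈ S j, (x : ℕ) = ∑ i ∈ C j, vl S e i j := by
    intro j
    rw [← Finset.sum_coe_sort (S j), ← Finset.sum_coe_sort (C j), ← Equiv.sum_comp (e j)]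
    refine sum_congr rfl fun x _ => ?_
    unfold vl
    rw [dif_pos (e j x).2]
    simp
  simp only [h1, Finset.sum_filter, Finset.mul_sum]
  rw [Finset.sum_comm]
  refine sum_congr rfl fun j _ => ?_
  rw [← Finset.sum_filter]
  congr 1
  ext i; simp

/-- The key step: rearrangement forces equality. -/
theorem eq_of_mexp_eq {S S₀ : Fin s → Finset (Fin N)} (e : ∀ j, S j ≃ C j)
    (e₀ : ∀ j, S₀ j ≃ C j)
    (hmono : ∀ i : Fin N, ∀ j j' : Fin s, i ∈ C j → i ∈ C j' → j ≤ j' →
      vl S₀ e₀ i j ≤ vl S₀ e₀ i j')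
    (hm : mexp S e = mexp S₀ e₀) (hpot : pot S ≤ pot S₀) :
    ∀ j, ∀ i : C j, (((e j).symm i : S j) : Fin N) = (((e₀ j).symm i : S₀ j) : Fin N) := by
  classical
  have hr : ∀ i : Fin N, ∑ j ∈ univ.filter (fun j => i ∈ C j), (s - (j : ℕ)) * vl S₀ e₀ i j
      ≤ ∑ j ∈ univ.filter (fun j => i ∈ C j), (s - (j : ℕ)) * vl S e i j ∧
      (∑ j ∈ univ.filter (fun j => i ∈ C j), (s - (j : ℕ)) * vl S₀ e₀ i j
        = ∑ j ∈ univ.filter (fun j => i ∈ C j), (s - (j : ℕ)) * vl S e i j →
        ∀ j ∈ univ.filter (fun j => i ∈ C j), vl S₀ e₀ i j = vl S e i j) := by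
    intro i
    refine rearr _ _ _ ?_ ?_
    · intro j hj j' hj' hjj
      rw [mem_filter] at hj hj'
      exact hmono i j j' hj.2 hj'.2 hjj
    · intro x
      rw [card_vl_lt, card_vl_lt, hm]
  rw [pot_eq S e, pot_eq S₀ e₀] at hpot
  have hle := Finset.sum_le_sum fun i (_ : i ∈ (univ : Finset (Fin N))) => (hr i).1
  have heq := le_antisymm hle hpot
  have hall := (Finset.sum_eq_sum_iff_of_le fun i _ => (hr i).1).mp heq
  rintro j ⟨i, hi⟩
  have h1 := (hr i).2 (hall i (mem_univ i)) j (by simp [hi])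
  unfold vl at h1
  rw [dif_pos hi, dif_pos hi] at h1
  exact (Fin.ext h1).symm

theorem tuple_eq_of_symm_eq {S S₀ : Fin s → Finset (Fin N)} (e : ∀ j, S j ≃ C j)
    (e₀ : ∀ j, S₀ j ≃ C j)
    (h : ∀ j, ∀ i : C j, (((e j).symm i : S j) : Fin N) = (((e₀ j).symm i : S₀ j) : Fin N)) :
    S = S₀ := by
  funext j
  ext x
  constructor
  · intro hx
    have := h j (e j ⟨x, hx⟩)
    rw [Equiv.symm_apply_apply] at this
    simp only at this
    rw [this]
    exact Subtype.coe_prop _
  · intro hx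
    have := h j (e₀ j ⟨x, hx⟩)
    rw [Equiv.symm_apply_apply] at this
    simp only at this
    rw [← this]
    exact Subtype.coe_prop _

end Exp

section Rank

/-- The order isomorphism onto an initial segment computes ranks. -/
theorem rank_eq {S D : Finset (Fin N)} (hD : ∀ i ∈ D, ∀ i' : Fin N, i' < i → i' ∈ D)
    (e : S ≃o D) (x : S) :
    (S.filter fun y : Fin N => (y : ℕ) < (x : Fin N)).card = ((e x : D) : Fin N) := by
  classical
  have h1 : (S.filter fun y : Fin N => (y : ℕ) < (x : Fin N)).card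
      = (D.filter fun i : Fin N => (i : ℕ) < ((e x : D) : Fin N)).card := by
    refine Finset.card_bij (fun y hy => ((e ⟨y, (mem_filter.mp hy).1⟩ : D) : Fin N)) ?_ ?_ ?_
    · intro y hy
      have hyS := (mem_filter.mp hy).1
      have hlt := (mem_filter.mp hy).2
      rw [mem_filter]
      refine ⟨(e ⟨y, hyS⟩).2, ?_⟩
      have h2 : (⟨y, hyS⟩ : S) < x := hlt
      have h3 : e ⟨y, hyS⟩ < e x := e.lt_iff_lt.mpr h2
      exact h3
    · intro y hy y' hy' h
      have h2 := e.injective (Subtype.ext h)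
      exact congrArg Subtype.val h2
    · intro i hi
      rw [mem_filter] at hi
      refine ⟨(e.symm ⟨i, hi.1⟩ : S), ?_, ?_⟩
      · rw [mem_filter]
        refine ⟨Subtype.coe_prop _, ?_⟩
        have h2 : (⟨i, hi.1⟩ : D) < e x := hi.2
        have h3 : e.symm ⟨i, hi.1⟩ < x := by
          rw [← e.lt_iff_lt, OrderIso.apply_symm_apply]; exact h2
        exact h3
      · simp
  rw [h1]
  have h2 : (D.filter fun i : Fin N => (i : ℕ) < ((e x : D) : Fin N))
      = Finset.Iio ((e x : D) : Fin N) := by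
    ext i
    rw [mem_filter, Finset.mem_Iio]
    constructor
    · rintro ⟨_, h⟩; exact h
    · intro h; exact ⟨hD _ (e x).2 i h, h⟩
  rw [h2, Fin.card_Iio]

/-- In a standard tuple rows are weakly increasing. -/
theorem vl_mono_succ {C : Fin s → Finset (Fin N)}
    (hC : ∀ j, ∀ i ∈ C j, ∀ i' : Fin N, i' < i → i' ∈ C j)
    {S₀ : Fin s → Finset (Fin N)} (hstd : Std S₀) (e₀ : ∀ j, S₀ j ≃o C j)
    (i : Fin N) {j j' : Fin s} (h : (j : ℕ) + 1 = j') (hi : i ∈ C j) (hi' : i ∈ C j') :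
    vl S₀ (fun j => (e₀ j).toEquiv) i j ≤ vl S₀ (fun j => (e₀ j).toEquiv) i j' := by
  classical
  unfold vl
  rw [dif_pos hi, dif_pos hi']
  by_contra hcon
  rw [not_le] at hcon
  set x : S₀ j := (e₀ j).toEquiv.symm ⟨i, hi⟩ with hx
  set x' : S₀ j' := (e₀ j').toEquiv.symm ⟨i, hi'⟩ with hx'
  have r1 := rank_eq (hC j) (e₀ j) x
  have r2 := rank_eq (hC j') (e₀ j') x'
  have e1 : ((e₀ j x : C j) : Fin N) = i := by
    have : e₀ j x = ⟨i, hi⟩ := (e₀ j).toEquiv.apply_symm_apply _
    rw [this]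
  have e2 : ((e₀ j' x' : C j') : Fin N) = i := by
    have : e₀ j' x' = ⟨i, hi'⟩ := (e₀ j').toEquiv.apply_symm_apply _
    rw [this]
  rw [e1] at r1
  rw [e2] at r2
  have h3 := hstd j j' h (((x' : Fin N) : ℕ) + 1)
  have h4 : ((S₀ j').filter fun y : Fin N => (y : ℕ) < (x' : Fin N)).card + 1
      ≤ ((S₀ j').filter fun y : Fin N => (y : ℕ) < ((x' : Fin N) : ℕ) + 1).card := by
    have hnm : (x' : Fin N) ∉ ((S₀ j').filter fun y : Fin N => (y : ℕ) < (x' : Fin N)) := by
      rw [mem_filter]; rintro ⟨_, h⟩; omega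
    rw [← Finset.card_insert_of_notMem hnm]
    refine card_le_card fun y hy => ?_
    rw [mem_insert, mem_filter] at hy
    rw [mem_filter]
    rcases hy with rfl | ⟨hy, hy'⟩
    · exact ⟨x'.2, by omega⟩
    · exact ⟨hy, by omega⟩
  have h5 : ((S₀ j).filter fun y : Fin N => (y : ℕ) < ((x' : Fin N) : ℕ) + 1).card
      ≤ ((S₀ j).filter fun y : Fin N => (y : ℕ) < (x : Fin N)).card := by
    refine card_le_card fun y hy => ?_
    rw [mem_filter] at hy ⊢
    exact ⟨hy.1, by omega⟩
  omega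

theorem vl_mono {C : Fin s → Finset (Fin N)}
    (hC : ∀ j, ∀ i ∈ C j, ∀ i' : Fin N, i' < i → i' ∈ C j)
    (hC' : ∀ j j' : Fin s, (j : ℕ) + 1 = j' → C j' ⊆ C j)
    {S₀ : Fin s → Finset (Fin N)} (hstd : Std S₀) (e₀ : ∀ j, S₀ j ≃o C j)
    (i : Fin N) (j j' : Fin s) (_hi : i ∈ C j) (hi' : i ∈ C j') (hjj : j ≤ j') :
    vl S₀ (fun j => (e₀ j).toEquiv) i j ≤ vl S₀ (fun j => (e₀ j).toEquiv) i j' := by
  obtain ⟨d, hd⟩ : ∃ d : ℕ, (j : ℕ) + d = j' := ⟨(j' : ℕ) - j, by
    have : (j : ℕ) ≤ (j' : ℕ) := hjj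
    omega⟩
  induction d generalizing j' with
  | zero =>
    have : j = j' := Fin.ext (by omega)
    subst this; exact le_rfl
  | succ d ih =>
    have hlt : (j : ℕ) + d < s := by have := j'.2; omega
    set k : Fin s := ⟨(j : ℕ) + d, hlt⟩ with hk
    have hkj' : (k : ℕ) + 1 = j' := by simp only [hk]; omega
    have hik : i ∈ C k := hC' k j' hkj' hi'
    refine (ih k hik ?_ rfl).trans (vl_mono_succ hC hstd e₀ i hkj' hik hi')
    show (j : ℕ) ≤ (j : ℕ) + d
    omega

end Rank

end Pool.Agent.D818A
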