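import Mathlib

/-!
Straightening in a multi-column exterior product, in coordinates.

`v : (Fin s → Finset (Fin N)) → K` is a vector of `Λ(V)^{⊗ s}` over a field of characteristic 2
(no signs), `Primitive v` says that all divided powers `E_j^{(r)}` (`r ≥ 1`) of the column
raising operators kill it.  The main result, `eq_zero_of_std`, says that a primitive vector that
vanishes at all standard tuples is zero.
-/

open Finset Function

namespace Pool.Agent.D818A

variable {K : Type*} [CommRing K]

section TwoColumns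

variable {α : Type*} [DecidableEq α]

/-- Primitivity for a pair of columns. -/
def Prim2 (w : Finset α → Finset α → K) : Prop :=
  ∀ r : ℕ, 1 ≤ r → ∀ A B : Finset α,
    ∑ Y ∈ (A \ B).powersetCard r, w (A \ Y) (B ∪ Y) = 0

/-- The Garnir sums vanish. `I` is the set of sites in both columns. -/
theorem garnir {w : Finset α → Finset α → K} (hw : Prim2 w) :
    ∀ (n : ℕ) (I p M q : Finset α) (i : ℕ), p.card = n → n + 1 ≤ i →
      Disjoint I p → Disjoint I M → Disjoint I q → Disjoint p M → Disjoint p q → Disjoint M q →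
      ∑ Y ∈ M.powersetCard i, w (I ∪ p ∪ (M \ Y)) (I ∪ q ∪ Y) = 0 := by
  intro n
  induction n using Nat.strong_induction_on with
  | _ n ih =>
  intro I p M q i hp hi hIp hIM hIq hpM hpq hMq
  have h1 := hw i (by omega) (I ∪ p ∪ M) (I ∪ q)
  have hset : (I ∪ p ∪ M) \ (I ∪ q) = p ∪ M := by
    ext x
    simp only [mem_sdiff, mem_union]
    have a1 : x ∈ I → x ∉ p := fun h h' => (Finset.disjoint_left.mp hIp) h h'
    have a2 : x ∈ I → x ∉ M := fun h h' => (Finset.disjoint_left.mp hIM) h h'
    have a3 : x ∈ p → x ∉ q := fun h h' => (Finset.disjoint_left.mp hpq) h h'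
    have a4 : x ∈ M → x ∉ q := fun h h' => (Finset.disjoint_left.mp hMq) h h'
    tauto
  rw [hset] at h1
  -- split `Y = A ∪ Y'` with `A ⊆ p`, `Y' ⊆ M`
  have h2 : ∑ Y ∈ (p ∪ M).powersetCard i, w ((I ∪ p ∪ M) \ Y) (I ∪ q ∪ Y)
      = ∑ A ∈ p.powerset, ∑ Y ∈ (M.powerset.filter fun Y => A.card + Y.card = i),
          w (I ∪ (p \ A) ∪ (M \ Y)) (I ∪ (q ∪ A) ∪ Y) := by
    rw [Finset.sum_sigma']
    refine Finset.sum_bij' (fun Y _ => (⟨Y ∩ p, Y ∩ M⟩ : (_ : Finset α) × Finset α))
      (fun z _ => z.1 ∪ z.2) ?_ ?_ ?_ ?_ ?_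
    · intro Y hY
      rw [mem_powersetCard] at hY
      simp only [mem_sigma, mem_powerset, mem_filter]
      refine ⟨inter_subset_right, inter_subset_right, ?_⟩
      rw [← hY.2, ← card_union_of_disjoint]
      · congr 1
        rw [← inter_union_distrib_left]
        exact inter_eq_left.mpr hY.1
      · exact (hpM.mono inter_subset_right inter_subset_right)
    · rintro ⟨A, Y⟩ hz
      simp only [mem_sigma, mem_powerset, mem_filter] at hz
      obtain ⟨hA, hY, hc⟩ := hz
      rw [mem_powersetCard]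
      refine ⟨union_subset_union hA hY, ?_⟩
      rw [card_union_of_disjoint (hpM.mono hA hY), hc]
    · intro Y hY
      rw [mem_powersetCard] at hY
      show Y ∩ p ∪ Y ∩ M = Y
      rw [← inter_union_distrib_left]
      exact inter_eq_left.mpr hY.1
    · rintro ⟨A, Y⟩ hz
      simp only [mem_sigma, mem_powerset, mem_filter] at hz
      obtain ⟨hA, hY, hc⟩ := hz
      have e1 : (A ∪ Y) ∩ p = A := by
        rw [union_inter_distrib_right, inter_eq_left.mpr hA,
          (disjoint_iff_inter_eq_empty.mp ((hpM.mono_right hY).symm)), union_empty]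
      have e2 : (A ∪ Y) ∩ M = Y := by
        rw [union_inter_distrib_right, inter_eq_left.mpr hY,
          (disjoint_iff_inter_eq_empty.mp ((hpM.mono_left hA))), empty_union]
      simp only [e1, e2]
    · intro Y hY
      rw [mem_powersetCard] at hY
      have hYs := hY.1
      congr 1
      · ext x
        simp only [mem_sdiff, mem_union, mem_inter]
        have a1 : x ∈ I → x ∉ p := fun h h' => (Finset.disjoint_left.mp hIp) h h'
        have a2 : x ∈ I → x ∉ M := fun h h' => (Finset.disjoint_left.mp hIM) h h'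
        have a5 : x ∈ Y → x ∈ p ∨ x ∈ M := fun h => mem_union.mp (hYs h)
        tauto
      · ext x
        simp only [mem_union, mem_inter]
        have a5 : x ∈ Y → x ∈ p ∨ x ∈ M := fun h => mem_union.mp (hYs h)
        tauto
  rw [h2] at h1
  -- only `A = ∅` survives
  rw [Finset.sum_eq_single_of_mem ∅ (by simp)] at h1
  · have h3 : (M.powerset.filter fun Y => (∅ : Finset α).card + Y.card = i) = M.powersetCard i := by
      ext Y
      simp [mem_powersetCard]
    rw [h3] at h1
    simpa using h1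
  · intro A hA hne
    rw [mem_powerset] at hA
    have hcA : 0 < A.card := Finset.card_pos.mpr (Finset.nonempty_iff_ne_empty.mpr hne)
    have hcA' : A.card ≤ p.card := card_le_card hA
    have h3 : (M.powerset.filter fun Y => A.card + Y.card = i) = M.powersetCard (i - A.card) := by
      ext Y
      simp only [mem_filter, mem_powerset, mem_powersetCard]
      constructor
      · rintro ⟨h, h'⟩; exact ⟨h, by omega⟩
      · rintro ⟨h, h'⟩; exact ⟨h, by omega⟩
    rw [h3]
    refine ih (p \ A).card ?_ I (p \ A) M (q ∪ A) (i - A.card) rfl ?_ ?_ hIM ?_ ?_ ?_ ?_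
    · rw [card_sdiff_of_subset hA]; omega
    · rw [card_sdiff_of_subset hA]; omega
    · exact hIp.mono_right sdiff_subset
    · exact Finset.disjoint_union_right.mpr ⟨hIq, hIp.mono_right hA⟩
    · exact hpM.mono_left sdiff_subset
    · refine Finset.disjoint_union_right.mpr ⟨hpq.mono_left sdiff_subset, ?_⟩
      exact sdiff_disjoint
    · exact Finset.disjoint_union_right.mpr ⟨hMq, (hpM.mono_left hA).symm⟩

end TwoColumns

section Tuples

variable {N s : ℕ}

/-- All divided powers `E^{(r)}`, `r ≥ 1`, moving sites from column `j + 1` to column `j`,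
kill `v`. -/
def Primitive (v : (Fin s → Finset (Fin N)) → K) : Prop :=
  ∀ j j' : Fin s, (j : ℕ) + 1 = j' → ∀ r : ℕ, 1 ≤ r → ∀ S : Fin s → Finset (Fin N),
    ∑ Y ∈ (S j \ S j').powersetCard r,
      v (update (update S j (S j \ Y)) j' (S j' ∪ Y)) = 0

/-- Standard tuples of columns. -/
def Std (S : Fin s → Finset (Fin N)) : Prop :=
  ∀ j j' : Fin s, (j : ℕ) + 1 = j' → ∀ x : ℕ,
    ((S j').filter fun y : Fin N => (y : ℕ) < x).card
      ≤ ((S j).filter fun y : Fin N => (y : ℕ) < x).card

/-- The potential. -/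
def pot (S : Fin s → Finset (Fin N)) : ℕ := ∑ j : Fin s, (s - (j : ℕ)) * ∑ x ∈ S j, (x : ℕ)

theorem Primitive.prim2 {v : (Fin s → Finset (Fin N)) → K} (hv : Primitive v)
    {j j' : Fin s} (h : (j : ℕ) + 1 = j') (S : Fin s → Finset (Fin N)) :
    Prim2 fun A B => v (update (update S j A) j' B) := by
  intro r hr A B
  have hne : j ≠ j' := by rintro rfl; omega
  have h1 := hv j j' h r hr (update (update S j A) j' B)
  have e1 : update (update S j A) j' B j = A := by
    rw [update_of_ne hne, update_self]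
  have e2 : update (update S j A) j' B j' = B := by rw [update_self]
  rw [e1, e2] at h1
  rw [← h1]
  refine sum_congr rfl fun Y _ => ?_
  show v _ = v _
  congr 1
  funext k
  by_cases hk' : k = j'
  · subst hk'; simp
  · rw [update_of_ne hk', update_of_ne hk']
    by_cases hk : k = j
    · subst hk; simp
    · rw [update_of_ne hk, update_of_ne hk, update_of_ne hk', update_of_ne hk]

/-- The change of potential when two columns are modified. -/
theorem pot_lt {j j' : Fin s} (h : (j : ℕ) + 1 = j') (S : Fin s → Finset (Fin N))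
    (A B : Finset (Fin N))
    (hsum : ∑ x ∈ A, (x : ℕ) + ∑ x ∈ B, (x : ℕ) = ∑ x ∈ S j, (x : ℕ) + ∑ x ∈ S j', (x : ℕ))
    (hlt : ∑ x ∈ A, (x : ℕ) < ∑ x ∈ S j, (x : ℕ)) :
    pot (update (update S j A) j' B) < pot S := by
  have hne : j ≠ j' := by rintro rfl; omega
  have hj' : (j' : ℕ) < s := j'.2
  unfold pot
  have key : ∀ T : Fin s → Finset (Fin N),
      ∑ k : Fin s, (s - (k : ℕ)) * ∑ x ∈ T k, (x : ℕ)
        = (s - (j : ℕ)) * ∑ x ∈ T j, (x : ℕ) + (s - (j' : ℕ)) * ∑ x ∈ T j', (x : ℕ)
          + ∑ k ∈ (univ.erase j).erase j', (s - (k : ℕ)) * ∑ x ∈ T k, (x : ℕ) := by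
    intro T
    rw [← Finset.add_sum_erase univ _ (mem_univ j),
      ← Finset.add_sum_erase (univ.erase j) _ (mem_erase.mpr ⟨hne.symm, mem_univ j'⟩)]
    ring
  rw [key, key S]
  have e1 : update (update S j A) j' B j = A := by
    rw [update_of_ne hne, update_self]
  have e2 : update (update S j A) j' B j' = B := by rw [update_self]
  rw [e1, e2]
  have e3 : ∑ k ∈ (univ.erase j).erase j',
      (s - (k : ℕ)) * ∑ x ∈ update (update S j A) j' B k, (x : ℕ)
      = ∑ k ∈ (univ.erase j).erase j', (s - (k : ℕ)) * ∑ x ∈ S k, (x : ℕ) := by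
    refine sum_congr rfl fun k hk => ?_
    rw [mem_erase, mem_erase] at hk
    rw [update_of_ne hk.1, update_of_ne hk.2.1]
  rw [e3]
  have e4 : s - (j : ℕ) = (s - (j' : ℕ)) + 1 := by omega
  rw [e4]
  have : (s - (j' : ℕ)) * ∑ x ∈ A, (x : ℕ) + (s - (j' : ℕ)) * ∑ x ∈ B, (x : ℕ)
      = (s - (j' : ℕ)) * ∑ x ∈ S j, (x : ℕ) + (s - (j' : ℕ)) * ∑ x ∈ S j', (x : ℕ) := by
    rw [← mul_add, ← mul_add, hsum]
  nlinarith [this, hlt]

/-- If `S` is not standard then there are two adjacent columns and a threshold `x` where the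
condition fails for the first time. -/
theorem exists_violation {A B : Finset (Fin N)}
    (h : ∃ x : ℕ, ((A.filter fun y : Fin N => (y : ℕ) < x).card
        < (B.filter fun y : Fin N => (y : ℕ) < x).card)) :
    ∃ x : ℕ, ((A \ B).filter fun y : Fin N => (y : ℕ) < x).card + 1
        = ((B \ A).filter fun y : Fin N => (y : ℕ) < x).card := by
  classical
  have hsplit : ∀ (C D : Finset (Fin N)) (x : ℕ),
      (C.filter fun y : Fin N => (y : ℕ) < x).card
        = ((C \ D).filter fun y : Fin N => (y : ℕ) < x).card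
          + ((C ∩ D).filter fun y : Fin N => (y : ℕ) < x).card := by
    intro C D x
    rw [← card_union_of_disjoint]
    · rw [← filter_union, sdiff_union_inter]
    · exact disjoint_filter_filter (disjoint_sdiff_inter C D)
  have h' : ∃ x : ℕ, ((A \ B).filter fun y : Fin N => (y : ℕ) < x).card
        < ((B \ A).filter fun y : Fin N => (y : ℕ) < x).card := by
    obtain ⟨x, hx⟩ := h
    refine ⟨x, ?_⟩
    rw [hsplit A B, hsplit B A, inter_comm B A] at hx
    omega
  have hmin := Nat.find_spec h'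
  have hlt := fun y (hy : y < Nat.find h') => Nat.find_min h' hy
  refine ⟨Nat.find h', ?_⟩
  obtain ⟨y, hy⟩ : ∃ y, Nat.find h' = y + 1 := by
    refine Nat.exists_eq_succ_of_ne_zero fun h0 => ?_
    rw [h0] at hmin
    simp at hmin
  have hprev := hlt y (by omega)
  rw [hy] at hmin ⊢
  have hstep : ∀ C : Finset (Fin N), (C.filter fun z : Fin N => (z : ℕ) < y + 1).card
      ≤ (C.filter fun z : Fin N => (z : ℕ) < y).card + 1 := by
    intro C
    by_cases hyN : y < N
    · have : (C.filter fun z : Fin N => (z : ℕ) < y + 1)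
          ⊆ insert ⟨y, hyN⟩ (C.filter fun z : Fin N => (z : ℕ) < y) := by
        intro z hz
        rw [mem_filter] at hz
        rw [mem_insert, mem_filter]
        by_cases hzy : (z : ℕ) = y
        · left; exact Fin.ext hzy
        · right; exact ⟨hz.1, by omega⟩
      exact (card_le_card this).trans (card_insert_le _ _)
    · have : (C.filter fun z : Fin N => (z : ℕ) < y + 1)
          ⊆ (C.filter fun z : Fin N => (z : ℕ) < y) := by
        intro z hz
        rw [mem_filter] at hz ⊢
        exact ⟨hz.1, by have := z.2; omega⟩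
      exact (card_le_card this).trans (Nat.le_succ _)
  have hmono : ∀ C : Finset (Fin N), (C.filter fun z : Fin N => (z : ℕ) < y).card
      ≤ (C.filter fun z : Fin N => (z : ℕ) < y + 1).card := by
    intro C
    refine card_le_card fun z hz => ?_
    rw [mem_filter] at hz ⊢
    exact ⟨hz.1, by omega⟩
  have := hstep (B \ A)
  have := hmono (A \ B)
  omega

/-- **Straightening.** A primitive vector vanishing at the standard tuples is zero. -/
theorem eq_zero_of_std {v : (Fin s → Finset (Fin N)) → K} (hv : Primitive v)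
    (h0 : ∀ S, Std S → v S = 0) : v = 0 := by
  classical
  suffices H : ∀ (n : ℕ) (S : Fin s → Finset (Fin N)), pot S = n → v S = 0 by
    funext S; exact H _ S rfl
  intro n
  induction n using Nat.strong_induction_on with
  | _ n ih =>
  intro S hS
  by_cases hstd : Std S
  · exact h0 S hstd
  unfold Std at hstd
  push Not at hstd
  obtain ⟨j, j', hjj, x0, hx0⟩ := hstd
  have hne : j ≠ j' := by rintro rfl; omega
  obtain ⟨x, hx⟩ := exists_violation (A := S j) (B := S j') ⟨x0, hx0⟩
  set A := S j with hA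
  set B := S j' with hB
  set I := A ∩ B with hI
  set p := (A \ B).filter (fun y : Fin N => (y : ℕ) < x) with hp
  set A' := (A \ B).filter (fun y : Fin N => ¬ (y : ℕ) < x) with hA'
  set B0 := (B \ A).filter (fun y : Fin N => (y : ℕ) < x) with hB0
  set q := (B \ A).filter (fun y : Fin N => ¬ (y : ℕ) < x) with hq
  have memI : ∀ z, z ∈ I ↔ z ∈ A ∧ z ∈ B := fun z => by rw [hI, mem_inter]
  have memp : ∀ z, z ∈ p ↔ (z ∈ A ∧ z ∉ B) ∧ (z : ℕ) < x := fun z => by
    rw [hp, mem_filter, mem_sdiff]
  have memA' : ∀ z, z ∈ A' ↔ (z ∈ A ∧ z ∉ B) ∧ ¬ (z : ℕ) < x := fun z => by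
    rw [hA', mem_filter, mem_sdiff]
  have memB0 : ∀ z, z ∈ B0 ↔ (z ∈ B ∧ z ∉ A) ∧ (z : ℕ) < x := fun z => by
    rw [hB0, mem_filter, mem_sdiff]
  have memq : ∀ z, z ∈ q ↔ (z ∈ B ∧ z ∉ A) ∧ ¬ (z : ℕ) < x := fun z => by
    rw [hq, mem_filter, mem_sdiff]
  have dis : ∀ C D : Finset (Fin N), (∀ z, z ∈ C → z ∈ D → False) → Disjoint C D :=
    fun C D h => Finset.disjoint_left.mpr h
  have hG := garnir (hv.prim2 hjj S) p.card I p (A' ∪ B0) q (p.card + 1) rfl le_rfl
    (dis _ _ fun z h1 h2 => by rw [memI] at h1; rw [memp] at h2; tauto)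
    (dis _ _ fun z h1 h2 => by rw [memI] at h1; rw [mem_union, memA', memB0] at h2; tauto)
    (dis _ _ fun z h1 h2 => by rw [memI] at h1; rw [memq] at h2; tauto)
    (dis _ _ fun z h1 h2 => by rw [memp] at h1; rw [mem_union, memA', memB0] at h2; tauto)
    (dis _ _ fun z h1 h2 => by rw [memp] at h1; rw [memq] at h2; tauto)
    (dis _ _ fun z h1 h2 => by rw [mem_union, memA', memB0] at h1; rw [memq] at h2; tauto)
  have hB0mem : B0 ∈ (A' ∪ B0).powersetCard (p.card + 1) := by
    rw [mem_powersetCard]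
    exact ⟨subset_union_right, hx.symm⟩
  rw [← Finset.add_sum_erase _ _ hB0mem] at hG
  have e1 : I ∪ p ∪ ((A' ∪ B0) \ B0) = A := by
    ext z
    simp only [mem_union, mem_sdiff, memI, memp, memA', memB0]
    tauto
  have e2 : I ∪ q ∪ B0 = B := by
    ext z
    simp only [mem_union, memI, memq, memB0]
    tauto
  rw [e1, e2] at hG
  have e3 : update (update S j A) j' B = S := by
    rw [hA, hB]; simp
  simp only [e3] at hG
  rw [Finset.sum_eq_zero, add_zero] at hG
  · exact hG
  intro Y hY
  rw [mem_erase, mem_powersetCard] at hY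
  obtain ⟨hYne, hYsub, hYcard⟩ := hY
  refine ih _ ?_ _ rfl
  rw [← hS]
  -- the sites of `Y` and the potential
  have hYsub' : ∀ z, z ∈ Y → z ∈ A' ∨ z ∈ B0 := fun z hz => mem_union.mp (hYsub hz)
  have hdA'B0 : Disjoint A' B0 := dis _ _ fun z h1 h2 => by
    rw [memA'] at h1; rw [memB0] at h2; tauto
  have hcard : (Y ∩ A').card = (B0 \ Y).card := by
    have c1 : (Y ∩ A').card + (Y ∩ B0).card = Y.card := by
      rw [← card_union_of_disjoint (hdA'B0.mono inter_subset_right inter_subset_right),
        ← inter_union_distrib_left, inter_eq_left.mpr hYsub]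
    have c2 : (B0 \ Y).card + (B0 ∩ Y).card = B0.card := by
      rw [← card_union_of_disjoint (disjoint_sdiff_inter B0 Y), sdiff_union_inter]
    rw [inter_comm B0 Y] at c2
    omega
  have hpos : (B0 \ Y).Nonempty := by
    rw [Finset.nonempty_iff_ne_empty]
    intro hemp
    have hsub : B0 ⊆ Y := sdiff_eq_empty_iff_subset.mp hemp
    exact hYne (Finset.eq_of_subset_of_card_le hsub (by omega)).symm
  have hsumlt : ∑ z ∈ B0 \ Y, (z : ℕ) < ∑ z ∈ Y ∩ A', (z : ℕ) := by
    have l1 : ∑ z ∈ B0 \ Y, ((z : ℕ) + 1) ≤ ∑ z ∈ B0 \ Y, x := by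
      refine Finset.sum_le_sum fun z hz => ?_
      rw [mem_sdiff, memB0] at hz
      omega
    have l2 : ∑ z ∈ Y ∩ A', x ≤ ∑ z ∈ Y ∩ A', (z : ℕ) := by
      refine Finset.sum_le_sum fun z hz => ?_
      rw [mem_inter, memA'] at hz
      omega
    rw [sum_const, smul_eq_mul] at l1 l2
    rw [Finset.sum_add_distrib, sum_const, smul_eq_mul] at l1
    have : 0 < (B0 \ Y).card := card_pos.mpr hpos
    rw [hcard] at l2
    omega
  -- the new columns
  have sA : ∑ z ∈ (I ∪ p ∪ ((A' ∪ B0) \ Y)), (z : ℕ) + ∑ z ∈ Y ∩ A', (z : ℕ)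
      = ∑ z ∈ A, (z : ℕ) + ∑ z ∈ B0 \ Y, (z : ℕ) := by
    rw [← Finset.sum_union, ← Finset.sum_union]
    · congr 1
      ext z
      simp only [mem_union, mem_sdiff, mem_inter, memI, memp, memA', memB0]
      tauto
    · refine dis _ _ fun z h1 h2 => ?_
      rw [mem_sdiff, memB0] at h2
      tauto
    · refine dis _ _ fun z h1 h2 => ?_
      simp only [mem_union, mem_sdiff, mem_inter, memI, memp, memA', memB0] at h1 h2
      tauto
  have sB : ∑ z ∈ (I ∪ q ∪ Y), (z : ℕ) + ∑ z ∈ B0 \ Y, (z : ℕ)
      = ∑ z ∈ B, (z : ℕ) + ∑ z ∈ Y ∩ A', (z : ℕ) := by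
    rw [← Finset.sum_union, ← Finset.sum_union]
    · congr 1
      ext z
      simp only [mem_union, mem_sdiff, mem_inter, memI, memq, memA', memB0]
      have := hYsub' z
      rw [memA', memB0] at this
      tauto
    · refine dis _ _ fun z h1 h2 => ?_
      rw [mem_inter, memA'] at h2
      tauto
    · refine dis _ _ fun z h1 h2 => ?_
      simp only [mem_union, mem_sdiff, memI, memq, memB0] at h1 h2
      tauto
  refine pot_lt hjj S _ _ ?_ ?_
  · rw [← hA, ← hB]; omega
  · rw [← hA]; omega

end Tuples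

end Pool.Agent.D818A
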