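import Pool.Agent.Lib.MP_d81877_alF.Mn
import Pool.Agent.Lib.MP_d81877_alA.Straighten

/-!
Laplace expansion for the permanent minors `mn` in characteristic two, and primitivity of the
vectors `S ↦ ∏ j, mn g (S j) (C j)`, `C` a decreasing chain of column sets.
-/

open Finset Function MP_d81877_alF

namespace Pool.Agent.D818A

section Lap

variable {ι : Type*} [Fintype ι] [DecidableEq ι] {R : Type*} [CommRing R]

/-- Coefficient of `e_T` in the product of the rows `row k` of `A`. -/
noncomputable def mnF {κ : Type*} [Fintype κ] (A : Matrix ι ι R) (row : κ → ι)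
    (T : Finset ι) : R := by
  classical
  exact ∑ f : κ → ι, if Injective f ∧ univ.image f = T then ∏ k, A (row k) (f k) else 0

theorem mnF_def {κ : Type*} [Fintype κ] [DecidableEq κ] (A : Matrix ι ι R) (row : κ → ι)
    (T : Finset ι) : mnF A row T =
      ∑ f : κ → ι, if Injective f ∧ univ.image f = T then ∏ k, A (row k) (f k) else 0 := by
  unfold mnF
  refine @Fintype.sum_equiv _ _ _ (_) (_) _ (Equiv.refl _) _ _ fun f => ?_
  by_cases h : Injective f ∧ univ.image f = T
  · rw [if_pos h]
    exact (if_pos h).symm
  · rw [if_neg h]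
    exact (if_neg h).symm

theorem mn_eq_mnF (A : Matrix ι ι R) (S T : Finset ι) :
    mn A S T = mnF A (fun i : S => (i : ι)) T := by
  classical
  rw [mnF_def, ← Finset.sum_filter]
  unfold mn
  refine Finset.sum_bij (fun e _ => fun i : S => ((e i : T) : ι)) ?_ ?_ ?_ ?_
  · intro e _
    simp only [mem_filter, mem_univ, true_and]
    refine ⟨fun i j hij => e.injective (Subtype.ext hij), ?_⟩
    ext x
    simp only [mem_image, mem_univ, true_and]
    constructor
    · rintro ⟨i, rfl⟩; exact (e i).2
    · intro hx; exact ⟨e.symm ⟨x, hx⟩, by simp⟩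
  · intro e _ e' _ h
    ext i
    exact congrFun h i
  · intro f hf
    simp only [mem_filter, mem_univ, true_and] at hf
    obtain ⟨hinj, himg⟩ := hf
    have hmem : ∀ i : S, f i ∈ T := fun i => himg ▸ Finset.mem_image_of_mem f (mem_univ i)
    refine ⟨Equiv.ofBijective (fun i : S => (⟨f i, hmem i⟩ : T)) ⟨?_, ?_⟩, mem_univ _, rfl⟩
    · intro i j hij
      exact hinj (congrArg Subtype.val hij)
    · rintro ⟨x, hx⟩
      rw [← himg] at hx
      obtain ⟨i, _, hi⟩ := Finset.mem_image.mp hx
      exact ⟨i, Subtype.ext hi⟩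
  · intro e _; rfl

theorem mnF_equiv {κ κ' : Type*} [Fintype κ] [Fintype κ'] (A : Matrix ι ι R)
    (e : κ ≃ κ') (row : κ' → ι) (T : Finset ι) : mnF A (row ∘ e) T = mnF A row T := by
  classical
  rw [mnF_def, mnF_def]
  refine Fintype.sum_equiv (Equiv.arrowCongr e (Equiv.refl ι)) _ _ fun f => ?_
  have h1 : Injective ((Equiv.arrowCongr e (Equiv.refl ι)) f) ↔ Injective f := by
    show Injective (f ∘ e.symm) ↔ Injective f
    exact e.symm.injective_comp f
  have h2 : univ.image ((Equiv.arrowCongr e (Equiv.refl ι)) f) = univ.image f := by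
    show univ.image (f ∘ e.symm) = univ.image f
    rw [← Finset.image_image, Finset.image_univ_equiv]
  have h3 : ∏ k, A (row k) ((Equiv.arrowCongr e (Equiv.refl ι)) f k)
      = ∏ k, A ((row ∘ e) k) (f k) := by
    rw [← Equiv.prod_comp e]
    refine prod_congr rfl fun k _ => ?_
    simp [Equiv.arrowCongr]
  simp only [h1, h2, h3]

theorem mnF_eq_zero [CharP R 2] {κ : Type*} [Fintype κ] (A : Matrix ι ι R) (row : κ → ι)
    (T : Finset ι) {a b : κ} (hab : a ≠ b) (h : row a = row b) : mnF A row T = 0 := by
  classical
  rw [mnF_def]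
  apply Finset.sum_involution (fun f _ => f ∘ Equiv.swap a b)
  · intro f _
    have h1 : Injective (f ∘ Equiv.swap a b) ↔ Injective f := (Equiv.swap a b).injective_comp f
    have h2 : univ.image (f ∘ Equiv.swap a b) = univ.image f := by
      rw [← Finset.image_image, Finset.image_univ_equiv]
    have h3 : ∏ k, A (row k) ((f ∘ Equiv.swap a b) k) = ∏ k, A (row k) (f k) := by
      rw [← Equiv.prod_comp (Equiv.swap a b) (fun k => A (row k) (f k))]
      refine prod_congr rfl fun k _ => ?_
      have hk : row ((Equiv.swap a b) k) = row k := by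
        rcases eq_or_ne k a with rfl | hka
        · rw [Equiv.swap_apply_left]; exact h.symm
        · rcases eq_or_ne k b with rfl | hkb
          · rw [Equiv.swap_apply_right]; exact h
          · rw [Equiv.swap_apply_of_ne_of_ne hka hkb]
      rw [hk]; rfl
    rw [h2, h3]
    simp only [h1]
    exact CharTwo.add_self_eq_zero _
  · intro f _ hf heq
    have hinj : Injective f := by
      by_contra hcon
      simp [hcon] at hf
    have h2 := congrFun heq a
    simp only [comp_apply, Equiv.swap_apply_left] at h2
    exact hab (hinj h2).symm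
  · intro f _; exact mem_univ _
  · intro f _
    funext k
    simp

theorem mnF_sum {κ κ' : Type*} [Fintype κ] [Fintype κ'] (A : Matrix ι ι R)
    (row : κ → ι) (row' : κ' → ι) (T : Finset ι) :
    mnF A (Sum.elim row row') T = ∑ I ∈ T.powerset, mnF A row I * mnF A row' (T \ I) := by
  classical
  simp only [mnF_def, Finset.sum_mul_sum]
  rw [Finset.sum_comm (s := T.powerset) (t := univ)]
  simp_rw [Finset.sum_comm (s := T.powerset) (t := univ)]
  rw [← Equiv.sum_comp (Equiv.sumArrowEquivProdArrow κ κ' ι).symm, Fintype.sum_prod_type]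
  refine sum_congr rfl fun f _ => sum_congr rfl fun f' _ => ?_
  have key : (Injective ((Equiv.sumArrowEquivProdArrow κ κ' ι).symm (f, f'))
      ∧ univ.image ((Equiv.sumArrowEquivProdArrow κ κ' ι).symm (f, f')) = T)
      ↔ (Injective f ∧ Injective f' ∧ univ.image f ⊆ T ∧ univ.image f' = T \ univ.image f) := by
    have e1 : (Equiv.sumArrowEquivProdArrow κ κ' ι).symm (f, f') = Sum.elim f f' := rfl
    rw [e1]
    have e2 : univ.image (Sum.elim f f') = univ.image f ∪ univ.image f' := by
      ext x
      simp only [mem_image, mem_univ, true_and, mem_union]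
      constructor
      · rintro ⟨a | a, rfl⟩
        · exact Or.inl ⟨a, rfl⟩
        · exact Or.inr ⟨a, rfl⟩
      · rintro (⟨a, rfl⟩ | ⟨a, rfl⟩)
        · exact ⟨Sum.inl a, rfl⟩
        · exact ⟨Sum.inr a, rfl⟩
    rw [e2]
    constructor
    · rintro ⟨hinj, himg⟩
      refine ⟨fun a b h => Sum.inl_injective (hinj h), fun a b h => Sum.inr_injective (hinj h),
        himg ▸ subset_union_left, ?_⟩
      rw [← himg, union_sdiff_left]
      symm
      rw [Finset.sdiff_eq_self_iff_disjoint, Finset.disjoint_left]
      intro x hx hx'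
      simp only [mem_image, mem_univ, true_and] at hx hx'
      obtain ⟨a, rfl⟩ := hx
      obtain ⟨b, hb⟩ := hx'
      have : (Sum.inr a : κ ⊕ κ') = Sum.inl b := hinj hb.symm
      simp at this
    · rintro ⟨h1, h2, h3, h4⟩
      have hdis : Disjoint (univ.image f) (univ.image f') := by
        rw [h4]; exact disjoint_sdiff
      refine ⟨?_, ?_⟩
      · rintro (a | a) (b | b) h
        · rw [h1 h]
        · exfalso
          exact (Finset.disjoint_left.mp hdis) (mem_image_of_mem f (mem_univ a))
            (by have h' : f a = f' b := h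
                rw [h']; exact mem_image_of_mem f' (mem_univ b))
        · exfalso
          exact (Finset.disjoint_left.mp hdis) (mem_image_of_mem f (mem_univ b))
            (by have h' : f' a = f b := h
                rw [← h']; exact mem_image_of_mem f' (mem_univ a))
        · rw [h2 h]
      · rw [h4]; exact union_sdiff_of_subset h3
  simp only [key]
  rw [Fintype.prod_sum_type]
  by_cases hf : univ.image f ⊆ T
  · rw [Finset.sum_eq_single_of_mem (univ.image f) (mem_powerset.mpr hf)]
    · by_cases c1 : Injective f <;> by_cases c2 : Injective f' <;>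
        by_cases c3 : univ.image f' = T \ univ.image f <;>
        simp [c1, c2, c3, hf, Equiv.sumArrowEquivProdArrow]
    · intro I _ hI
      have h0 : ¬ (Injective f ∧ univ.image f = I) := fun h => hI h.2.symm
      rw [if_neg h0, zero_mul]
  · have h0 : ¬ (Injective f ∧ Injective f' ∧ univ.image f ⊆ T ∧
        univ.image f' = T \ univ.image f) := fun h => hf h.2.2.1
    rw [if_neg h0]
    symm
    refine Finset.sum_eq_zero fun I hI => ?_
    rw [mem_powerset] at hI
    have h0 : ¬ (Injective f ∧ univ.image f = I) := fun h => hf (h.2 ▸ hI)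
    rw [if_neg h0, zero_mul]

/-- **Laplace expansion** in characteristic two. -/
theorem laplace [CharP R 2] (A : Matrix ι ι R) (Y B T : Finset ι) :
    ∑ I ∈ T.powerset, mn A Y I * mn A B (T \ I) =
      if Disjoint Y B then mn A (Y ∪ B) T else 0 := by
  classical
  simp only [mn_eq_mnF]
  rw [← mnF_sum]
  split_ifs with h
  · rw [← mnF_equiv A (Equiv.Finset.union Y B h)]
    congr 1
    funext z
    rcases z with z | z <;> simp
  · rw [Finset.not_disjoint_iff] at h
    obtain ⟨x, hx, hx'⟩ := h
    exact mnF_eq_zero A _ T (a := Sum.inl ⟨x, hx⟩) (b := Sum.inr ⟨x, hx'⟩) (by simp) rfl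

theorem laplace' [CharP R 2] (A : Matrix ι ι R) (I C T : Finset ι) :
    ∑ Y ∈ T.powerset, mn A Y I * mn A (T \ Y) C =
      if Disjoint I C then mn A T (I ∪ C) else 0 := by
  have := laplace A.transpose I C T
  simp only [mn_transpose] at this
  exact this

/-- The column relation: `C' ⊆ C` gives a primitive pair of columns. -/
theorem prim2_mn [CharP R 2] (A : Matrix ι ι R) {C C' : Finset ι} (hC : C' ⊆ C) :
    Prim2 fun S S' => mn A S C * mn A S' C' := by
  classical
  intro r hr S B
  have h1 : ∀ Y ∈ (S \ B).powersetCard r,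
      mn A (S \ Y) C * mn A (B ∪ Y) C'
        = mn A (S \ Y) C * ∑ I ∈ C'.powerset, mn A Y I * mn A B (C' \ I) := by
    intro Y hY
    rw [mem_powersetCard] at hY
    have hdis : Disjoint Y B := (Finset.subset_sdiff.mp hY.1).2
    rw [laplace, if_pos hdis, union_comm]
  rw [Finset.sum_congr rfl h1]
  have h2 : ∑ Y ∈ (S \ B).powersetCard r,
        mn A (S \ Y) C * ∑ I ∈ C'.powerset, mn A Y I * mn A B (C' \ I)
      = ∑ Y ∈ S.powerset.filter (fun Y => Y.card = r),
        mn A (S \ Y) C * ∑ I ∈ C'.powerset, mn A Y I * mn A B (C' \ I) := by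
    refine Finset.sum_subset ?_ ?_
    · intro Y hY
      rw [mem_powersetCard] at hY
      rw [mem_filter, mem_powerset]
      exact ⟨hY.1.trans sdiff_subset, hY.2⟩
    · intro Y hY hY'
      rw [mem_filter, mem_powerset] at hY
      rw [mem_powersetCard] at hY'
      rw [laplace, if_neg, mul_zero]
      intro hdis
      apply hY'
      refine ⟨?_, hY.2⟩
      exact Finset.subset_sdiff.mpr ⟨hY.1, hdis⟩
  rw [h2]
  simp only [Finset.mul_sum]
  rw [Finset.sum_comm]
  refine Finset.sum_eq_zero fun I hI => ?_
  rw [mem_powerset] at hI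
  by_cases hIr : I.card = r
  · have h3 : ∑ Y ∈ S.powerset.filter (fun Y => Y.card = r),
        mn A (S \ Y) C * (mn A Y I * mn A B (C' \ I))
        = mn A B (C' \ I) * ∑ Y ∈ S.powerset, mn A Y I * mn A (S \ Y) C := by
      rw [Finset.mul_sum, Finset.sum_filter]
      refine sum_congr rfl fun Y _ => ?_
      split_ifs with hY
      · ring
      · rw [mn_eq_zero_of_card_ne A (S := Y) (S' := I) (by omega)]
        ring
    rw [h3, laplace', if_neg, mul_zero]
    intro hdis
    have : I = ∅ := by
      have h4 : Disjoint I I := hdis.mono_right (hI.trans hC)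
      exact Finset.disjoint_self_iff_empty I |>.mp h4
    rw [this, card_empty] at hIr
    omega
  · refine Finset.sum_eq_zero fun Y hY => ?_
    rw [mem_filter] at hY
    rw [mn_eq_zero_of_card_ne A (S := Y) (S' := I) (by omega)]
    ring

end Lap

end Pool.Agent.D818A
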