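import Pool.Agent.Lib.MP_d81877_alA.Indep

/-!
Characteristic two version of the statement that the Weyl module is the kernel of all raising operators:
a vector supported on tuples of shape `c` that is killed by all `E_j^{(r)}`, `r ≥ 1`, is a
combination of the vectors `g v₊`, `g ∈ GL_N(F)`, `F` a finite field with more than `(s + 1) N`
elements.
-/

open Finset Function MP_d81877_alF

namespace Pool.Agent.D818A

variable {N s : ℕ}

section Poly

variable {K : Type*} [Field K]

/-- The generic matrix. -/
noncomputable abbrev gen (K : Type*) [Field K] (N : ℕ) :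
    Matrix (Fin N) (Fin N) (MvPolynomial (Fin N × Fin N) K) :=
  Matrix.mvPolynomialX (Fin N) (Fin N) K

theorem orb_gen (C S : Fin s → Finset (Fin N)) :
    orb (gen K N) C S = ∑ e : (∀ j, S j ≃ C j), MvPolynomial.monomial (mexp S e) (1 : K) := by
  classical
  unfold orb mn
  rw [Finset.prod_univ_sum, Fintype.piFinset_univ]
  refine sum_congr rfl fun e _ => ?_
  unfold mexp
  rw [MvPolynomial.monomial_sum_one]
  refine prod_congr rfl fun j _ => ?_
  rw [MvPolynomial.monomial_sum_one]
  refine prod_congr rfl fun x _ => ?_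
  rfl

theorem coeff_orb_gen {C : Fin s → Finset (Fin N)} {S S₀ : Fin s → Finset (Fin N)}
    (e₀ : ∀ j, S₀ j ≃ C j)
    (hmono : ∀ i : Fin N, ∀ j j' : Fin s, i ∈ C j → i ∈ C j' → j ≤ j' →
      vl S₀ e₀ i j ≤ vl S₀ e₀ i j')
    (hpot : pot S ≤ pot S₀) :
    MvPolynomial.coeff (mexp S₀ e₀) (orb (gen K N) C S) = if S = S₀ then 1 else 0 := by
  classical
  rw [orb_gen, MvPolynomial.coeff_sum]
  simp only [MvPolynomial.coeff_monomial]
  split_ifs with h
  · subst h
    rw [Finset.sum_eq_single e₀]
    · rw [if_pos rfl]
    · intro e _ hne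
      rw [if_neg]
      intro heq
      apply hne
      have h1 := eq_of_mexp_eq e e₀ hmono heq hpot
      funext j
      rw [← Equiv.symm_bijective.injective.eq_iff]
      ext i
      rw [h1 j i]
    · intro h; exact absurd (mem_univ _) h
  · refine Finset.sum_eq_zero fun e _ => ?_
    rw [if_neg]
    intro heq
    exact h (tuple_eq_of_symm_eq e e₀ (eq_of_mexp_eq e e₀ hmono heq hpot))

theorem totalDegree_orb_gen (C S : Fin s → Finset (Fin N)) :
    (orb (gen K N) C S).totalDegree ≤ s * N := by
  classical
  unfold orb
  refine (MvPolynomial.totalDegree_finsetProd _ _).trans ?_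
  have h1 : ∀ j : Fin s, (mn (gen K N) (S j) (C j)).totalDegree ≤ N := by
    intro j
    unfold mn
    refine MvPolynomial.totalDegree_finsetSum_le fun e _ => ?_
    refine (MvPolynomial.totalDegree_finsetProd _ _).trans ?_
    have h2 : ∀ x ∈ (univ : Finset (S j)),
        (gen K N x (e x)).totalDegree ≤ 1 := by
      intro x _
      exact (MvPolynomial.totalDegree_X (R := K) ((x : Fin N), ((e x : C j) : Fin N))).le
    refine (Finset.sum_le_card_nsmul _ _ _ h2).trans ?_
    rw [smul_eq_mul, mul_one, Finset.card_univ, Fintype.card_coe]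
    exact (card_le_univ _).trans (by simp)
  refine (Finset.sum_le_card_nsmul _ _ _ fun j _ => h1 j).trans ?_
  simp

theorem totalDegree_det_gen : (gen K N).det.totalDegree ≤ N := by
  classical
  rw [Matrix.det_apply]
  refine MvPolynomial.totalDegree_finsetSum_le fun σ _ => ?_
  have h1 : (∏ i, gen K N (σ i) i).totalDegree ≤ N := by
    refine (MvPolynomial.totalDegree_finsetProd _ _).trans ?_
    have h2 : ∀ x ∈ (univ : Finset (Fin N)), (gen K N (σ x) x).totalDegree ≤ 1 := by
      intro x _
      exact (MvPolynomial.totalDegree_X (R := K) ((σ x : Fin N), (x : Fin N))).le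
    refine (Finset.sum_le_card_nsmul _ _ _ h2).trans ?_
    simp
  rcases Int.units_eq_one_or (Equiv.Perm.sign σ) with h | h
  · rw [h, one_smul]; exact h1
  · rw [h, Units.neg_smul, one_smul, MvPolynomial.totalDegree_neg]; exact h1

theorem mn_map {R R' : Type*} [CommRing R] [CommRing R'] {ι : Type*} [Fintype ι] [DecidableEq ι]
    (f : R →+* R') (A : Matrix ι ι R) (S T : Finset ι) :
    mn (A.map f) S T = f (mn A S T) := by
  unfold mn
  rw [map_sum]
  refine sum_congr rfl fun e _ => ?_
  rw [map_prod]
  rfl

theorem orb_map {R R' : Type*} [CommRing R] [CommRing R']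
    (f : R →+* R') (A : Matrix (Fin N) (Fin N) R) (C S : Fin s → Finset (Fin N)) :
    orb (A.map f) C S = f (orb A C S) := by
  unfold orb
  rw [map_prod]
  refine prod_congr rfl fun j _ => mn_map f A _ _

end Poly

section Main

variable {K : Type*} [Field K] {F : Type*} [Field F] [Fintype F] [Algebra F K]

/-- Independence of the standard bideterminants on `GL_N(F)`. -/
theorem indep_std {C : Fin s → Finset (Fin N)}
    (hC : ∀ j, ∀ i ∈ C j, ∀ i' : Fin N, i' < i → i' ∈ C j)
    (hC' : ∀ j j' : Fin s, (j : ℕ) + 1 = j' → C j' ⊆ C j)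
    (hF : (s + 1) * N < Fintype.card F)
    (a : (Fin s → Finset (Fin N)) → K)
    (ha : ∀ S, a S ≠ 0 → Std S ∧ ∀ j, (S j).card = (C j).card)
    (h : ∀ g : GL (Fin N) F,
      ∑ S, a S * orb ((g : Matrix (Fin N) (Fin N) F).map (algebraMap F K)) C S = 0) :
    a = 0 := by
  classical
  -- the polynomial
  set f : MvPolynomial (Fin N × Fin N) K := ∑ S, MvPolynomial.C (a S) * orb (gen K N) C S
    with hf
  have hdeg : f.totalDegree ≤ s * N := by
    rw [hf]
    refine MvPolynomial.totalDegree_finsetSum_le fun S _ => ?_
    refine (MvPolynomial.totalDegree_mul _ _).trans ?_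
    rw [MvPolynomial.totalDegree_C, zero_add]
    exact totalDegree_orb_gen C S
  have heval : ∀ x : Fin N × Fin N → K,
      MvPolynomial.eval x f = ∑ S, a S * orb (Matrix.of fun i j => x (i, j)) C S := by
    intro x
    rw [hf, map_sum]
    refine sum_congr rfl fun S _ => ?_
    rw [map_mul, MvPolynomial.eval_C, ← orb_map (MvPolynomial.eval x)]
    congr 2
    ext i j
    simp [Matrix.mvPolynomialX_apply]
  have hprod : f * (gen K N).det = 0 := by
    refine MvPolynomial.eq_zero_of_eval_zero_at_prod_finset _
      (fun _ => univ.image (algebraMap F K)) ?_ ?_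
    · intro i
      have h1 : (univ.image (algebraMap F K)).card = Fintype.card F := by
        rw [Finset.card_image_of_injective _ (algebraMap F K).injective, Finset.card_univ]
      rw [h1]
      refine lt_of_le_of_lt ?_ hF
      refine (MvPolynomial.degreeOf_le_totalDegree _ _).trans ?_
      refine (MvPolynomial.totalDegree_mul _ _).trans ?_
      rw [add_mul, one_mul]
      exact add_le_add hdeg totalDegree_det_gen
    · intro x hx
      rw [map_mul]
      simp only [mem_image, mem_univ, true_and] at hx
      choose y hy using hx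
      set M : Matrix (Fin N) (Fin N) F := Matrix.of fun i j => y (i, j) with hM
      have hMx : M.map (algebraMap F K) = Matrix.of fun i j => x (i, j) := by
        ext i j
        simp [hM, hy]
      by_cases hdet : M.det = 0
      · have h2 : MvPolynomial.eval x (gen K N).det = 0 := by
          rw [RingHom.map_det]
          have h3 : (MvPolynomial.eval x).mapMatrix (gen K N) = (algebraMap F K).mapMatrix M := by
            ext i j
            simp [Matrix.mvPolynomialX_apply, hM, hy]
          rw [h3, ← RingHom.map_det, hdet, map_zero]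
        rw [h2, mul_zero]
      · have h2 : MvPolynomial.eval x f = 0 := by
          rw [heval, ← hMx]
          have := h (Matrix.GeneralLinearGroup.mkOfDetNeZero M hdet)
          exact this
        rw [h2, zero_mul]
  have hf0 : f = 0 := by
    rcases mul_eq_zero.mp hprod with h1 | h1
    · exact h1
    · exact absurd h1 (Matrix.det_mvPolynomialX_ne_zero (Fin N) K)
  by_contra hne
  obtain ⟨S₁, hS₁⟩ : ∃ S, a S ≠ 0 := by
    by_contra hcon
    push Not at hcon
    exact hne (funext hcon)
  obtain ⟨S₀, hS₀, hmax⟩ := Finset.exists_max_image (univ.filter fun S => a S ≠ 0) pot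
    ⟨S₁, by simp [hS₁]⟩
  rw [mem_filter] at hS₀
  obtain ⟨hstd, hcard⟩ := ha S₀ hS₀.2
  set e₀ : ∀ j, S₀ j ≃o C j := fun j =>
    ((S₀ j).orderIsoOfFin rfl).symm.trans ((C j).orderIsoOfFin (hcard j).symm) with he₀
  have hmono := vl_mono hC hC' hstd e₀
  have hcoeff : MvPolynomial.coeff (mexp S₀ fun j => (e₀ j).toEquiv) f = a S₀ := by
    rw [hf, MvPolynomial.coeff_sum, Finset.sum_eq_single S₀]
    · rw [MvPolynomial.coeff_C_mul, coeff_orb_gen _ hmono le_rfl, if_pos rfl, mul_one]
    · intro S _ hSne
      rw [MvPolynomial.coeff_C_mul]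
      by_cases haS : a S = 0
      · rw [haS, zero_mul]
      · rw [coeff_orb_gen _ hmono (hmax S (by simp [haS])), if_neg hSne, mul_zero]
    · intro h; exact absurd (mem_univ _) h
  rw [hf0, MvPolynomial.coeff_zero] at hcoeff
  exact hS₀.2 hcoeff.symm

/-- **Main theorem.** -/
theorem mem_span_of_primitive [CharP K 2] {C : Fin s → Finset (Fin N)}
    (hC : ∀ j, ∀ i ∈ C j, ∀ i' : Fin N, i' < i → i' ∈ C j)
    (hC' : ∀ j j' : Fin s, (j : ℕ) + 1 = j' → C j' ⊆ C j)
    (hF : (s + 1) * N < Fintype.card F)
    {v : (Fin s → Finset (Fin N)) → K} (hv : Primitive v)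
    (hsupp : ∀ S, v S ≠ 0 → ∀ j, (S j).card = (C j).card) :
    v ∈ Submodule.span K (Set.range fun g : GL (Fin N) F =>
      orb ((g : Matrix (Fin N) (Fin N) F).map (algebraMap F K)) C) := by
  classical
  set D := Submodule.span K (Set.range fun g : GL (Fin N) F =>
      orb ((g : Matrix (Fin N) (Fin N) F).map (algebraMap F K)) C) with hD
  have hDprim : D ≤ primitiveSubmodule K N s := by
    rw [hD, Submodule.span_le]
    rintro _ ⟨g, rfl⟩
    exact primitive_orb _ C hC'
  have hDsupp : ∀ d ∈ D, ∀ S, d S ≠ 0 → ∀ j, (S j).card = (C j).card := by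
    intro d hd
    rw [hD] at hd
    induction hd using Submodule.span_induction with
    | mem x hx =>
      obtain ⟨g, rfl⟩ := hx
      intro S hS j
      by_contra hcon
      apply hS
      show ∏ j, _ = _
      exact Finset.prod_eq_zero (mem_univ j) (mn_eq_zero_of_card_ne _ hcon)
    | zero => intro S hS; exact absurd rfl hS
    | add x y _ _ hx hy =>
      intro S hS j
      by_cases h1 : x S = 0
      · refine hy S ?_ j
        intro h2; apply hS; show x S + y S = 0; rw [h1, h2, add_zero]
      · exact hx S h1 j
    | smul c x _ hx =>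
      intro S hS j
      refine hx S ?_ j
      intro h1; apply hS; show c * x S = 0; rw [h1, mul_zero]
  -- restriction to standard tuples of the right shape
  let Q : Set (Fin s → Finset (Fin N)) := {S | Std S ∧ ∀ j, (S j).card = (C j).card}
  let res : ((Fin s → Finset (Fin N)) → K) →ₗ[K] (Q → K) :=
    LinearMap.funLeft K K (Subtype.val : Q → _)
  have hsurj : D.map res = ⊤ := by
    by_contra hne
    obtain ⟨φ, hφ0, hφ⟩ := Submodule.exists_le_ker_of_lt_top _ (lt_top_iff_ne_top.mpr hne)
    apply hφ0
    -- the coefficients of `φ`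
    set a : (Fin s → Finset (Fin N)) → K := fun S =>
      if hS : S ∈ Q then φ (Pi.single ⟨S, hS⟩ 1) else 0 with ha
    have hφa : ∀ w : (Fin s → Finset (Fin N)) → K, φ (res w) = ∑ S, a S * w S := by
      intro w
      have h1 : res w = ∑ q : Q, (w q) • (Pi.single q (1 : K) : Q → K) := by
        funext q
        rw [Finset.sum_apply]
        simp only [Pi.smul_apply, smul_eq_mul, Pi.single_apply]
        simp [res, LinearMap.funLeft_apply]
      rw [h1, map_sum]
      simp only [map_smul, smul_eq_mul]
      have h2 : ∑ S, a S * w S = ∑ S ∈ univ.filter (fun S => S ∈ Q), a S * w S := by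
        rw [Finset.sum_filter]
        refine sum_congr rfl fun S _ => ?_
        split_ifs with hS
        · rfl
        · rw [ha]; simp only [dif_neg hS, zero_mul]
      rw [h2]
      rw [← Finset.sum_subtype_eq_sum_filter, Finset.subtype_univ]
      refine sum_congr rfl fun q _ => ?_
      rw [ha]
      simp only [dif_pos q.2]
      rw [mul_comm]
    have ha0 : a = 0 := by
      refine indep_std hC hC' hF a ?_ ?_
      · intro S hS
        by_contra hcon
        apply hS
        rw [ha]
        exact dif_neg hcon
      · intro g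
        rw [← hφa]
        have h1 : res (orb ((g : Matrix (Fin N) (Fin N) F).map (algebraMap F K)) C) ∈ D.map res :=
          Submodule.mem_map_of_mem (Submodule.subset_span ⟨g, rfl⟩)
        exact LinearMap.mem_ker.mp (hφ h1)
    refine LinearMap.ext fun w => ?_
    set w' : (Fin s → Finset (Fin N)) → K := fun S => if hS : S ∈ Q then w ⟨S, hS⟩ else 0
      with hw'
    have h1 : res w' = w := by
      funext q
      simp only [res, LinearMap.funLeft_apply, hw']
      rw [dif_pos q.2]
    rw [← h1, hφa, ha0]
    simp
  have h1 : res v ∈ D.map res := by rw [hsurj]; exact Submodule.mem_top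
  obtain ⟨d, hd, hdv⟩ := h1
  have h2 : v - d = 0 := by
    refine eq_zero_of_std ((primitiveSubmodule K N s).sub_mem hv (hDprim hd)) ?_
    intro S hS
    rw [Pi.sub_apply]
    by_cases hc : ∀ j, (S j).card = (C j).card
    · have h3 := congrFun hdv ⟨S, hS, hc⟩
      simp only [res, LinearMap.funLeft_apply] at h3
      rw [h3, sub_self]
    · have h3 : v S = 0 := by
        by_contra hcon; exact hc (hsupp S hcon)
      have h4 : d S = 0 := by
        by_contra hcon; exact hc (hDsupp d hd S hcon)
      rw [h3, h4, sub_zero]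
  rw [sub_eq_zero] at h2
  rw [h2]; exact hd

/-- The span of the orbit is exactly the space of primitive vectors of shape `C`. -/
theorem mem_span_iff_primitive [CharP K 2] {C : Fin s → Finset (Fin N)}
    (hC : ∀ j, ∀ i ∈ C j, ∀ i' : Fin N, i' < i → i' ∈ C j)
    (hC' : ∀ j j' : Fin s, (j : ℕ) + 1 = j' → C j' ⊆ C j)
    (hF : (s + 1) * N < Fintype.card F)
    {v : (Fin s → Finset (Fin N)) → K}
    (hsupp : ∀ S, v S ≠ 0 → ∀ j, (S j).card = (C j).card) :
    v ∈ Submodule.span K (Set.range fun g : GL (Fin N) F =>
      orb ((g : Matrix (Fin N) (Fin N) F).map (algebraMap F K)) C) ↔ Primitive v := by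
  refine ⟨fun h => ?_, fun h => mem_span_of_primitive hC hC' hF h hsupp⟩
  have hDprim : Submodule.span K (Set.range fun g : GL (Fin N) F =>
      orb ((g : Matrix (Fin N) (Fin N) F).map (algebraMap F K)) C) ≤ primitiveSubmodule K N s := by
    rw [Submodule.span_le]
    rintro _ ⟨g, rfl⟩
    exact primitive_orb _ C hC'
  exact hDprim h

end Main

end Pool.Agent.D818A
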