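import Pool.Agent.Lib.MP_d81877_alA.Laplace

/-!
The orbit vectors `S ↦ ∏ j, mn A (S j) (C j)` are primitive.
-/

open Finset Function MP_d81877_alF

namespace Pool.Agent.D818A

variable {N s : ℕ} {R : Type*} [CommRing R]

/-- The orbit vectors: `A v₊`, where `v₊` is supported at the tuple `C`. -/
noncomputable def orb (A : Matrix (Fin N) (Fin N) R) (C : Fin s → Finset (Fin N)) :
    (Fin s → Finset (Fin N)) → R := fun S => ∏ j, mn A (S j) (C j)

theorem prod_update_two {j j' : Fin s} (hne : j ≠ j') (F : Fin s → Finset (Fin N) → R)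
    (S : Fin s → Finset (Fin N)) (X Z : Finset (Fin N)) :
    ∏ k, F k (update (update S j X) j' Z k)
      = F j X * F j' Z * ∏ k ∈ (univ.erase j).erase j', F k (S k) := by
  rw [← Finset.mul_prod_erase univ _ (mem_univ j),
    ← Finset.mul_prod_erase (univ.erase j) _ (mem_erase.mpr ⟨hne.symm, mem_univ j'⟩)]
  rw [update_of_ne hne, update_self, update_self, mul_assoc]
  congr 2
  refine prod_congr rfl fun k hk => ?_
  rw [mem_erase, mem_erase] at hk
  rw [update_of_ne hk.1, update_of_ne hk.2.1]

theorem primitive_orb [CharP R 2] (A : Matrix (Fin N) (Fin N) R) (C : Fin s → Finset (Fin N))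
    (hC : ∀ j j' : Fin s, (j : ℕ) + 1 = j' → C j' ⊆ C j) : Primitive (orb A C) := by
  intro j j' h r hr S
  have hne : j ≠ j' := by rintro rfl; omega
  have h1 := prim2_mn A (hC j j' h) r hr (S j) (S j')
  simp only [orb]
  have h2 : ∀ Y : Finset (Fin N),
      ∏ k, mn A (update (update S j (S j \ Y)) j' (S j' ∪ Y) k) (C k)
        = mn A (S j \ Y) (C j) * mn A (S j' ∪ Y) (C j')
          * ∏ k ∈ (univ.erase j).erase j', mn A (S k) (C k) := fun Y =>
    prod_update_two hne (fun k T => mn A T (C k)) S _ _
  simp only [h2]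
  rw [← Finset.sum_mul, h1, zero_mul]

/-- `Primitive` vectors form a submodule. -/
def primitiveSubmodule (K : Type*) [CommRing K] (N s : ℕ) :
    Submodule K ((Fin s → Finset (Fin N)) → K) where
  carrier := {v | Primitive v}
  add_mem' := by
    intro v w hv hw j j' h r hr S
    have h1 := hv j j' h r hr S
    have h2 := hw j j' h r hr S
    simp only [Pi.add_apply]
    rw [Finset.sum_add_distrib, h1, h2, add_zero]
  zero_mem' := by
    intro j j' h r hr S
    simp
  smul_mem' := by
    intro a v hv j j' h r hr S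
    have h1 := hv j j' h r hr S
    simp only [Pi.smul_apply, smul_eq_mul]
    rw [← Finset.mul_sum, h1, mul_zero]

theorem mem_primitiveSubmodule {K : Type*} [CommRing K] {N s : ℕ}
    {v : (Fin s → Finset (Fin N)) → K} : v ∈ primitiveSubmodule K N s ↔ Primitive v := Iff.rfl

end Pool.Agent.D818A
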